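import Pool.Agent.V1174.CovP.Main

/-!
# Coverings of the conjugacy class of a `p`-element by proper subgroups

Let `G` be a finite group, `x` a `p`-element of `G` and suppose that the conjugacy class `x^G`
generates `G ≠ 1`. Then every covering of `x^G` by proper subgroups of `G` uses at least `p + 1`
subgroups. In particular this holds for every nonidentity `p`-element of a nonabelian simple group.

Idea. Let `(G, x)` be a counterexample with `|G|` minimal and take a covering of `x^G` by `k ≤ p`
maximal subgroups with `k` minimal. By minimality of `G`, every proper subgroup `K` which is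
generated by the `K`-class of a conjugate `z` of `x` (call such `K` good for `z`) lies in a member
of the covering. Some conjugate `a` lies in exactly one member `H`, so all proper subgroups good
for `a` lie in `H` and their join `M` is the largest of them. Then `M` is subnormal in every proper
subgroup that contains it, but not in `G`, so by Wielandt's zipper lemma (proved in
`Pool/Agent/V1174/CovP/Sub.lean`) `H` is the only maximal subgroup containing `M`. The conjugates
of `M` lie in members of the covering, hence all the conjugates of `H` belong to the covering and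
there are at most `p` of them. The element `a` permutes them with `p`-power order and fixes `H`, so
it fixes them all, and `H` is normal in `⟨a^G⟩ = G`, a contradiction.
-/

set_option autoImplicit false

namespace Pool.Agent.Results.MP_8885f1_al.CoveringNumber

universe u

/-- `γ(X)`: the least number of proper subgroups of `G` whose union contains `X` (`⊤ = ∞` if there
is no such finite family). -/
noncomputable def gamma {G : Type u} [Group G] (X : Set G) : ℕ∞ :=
  ⨅ 𝓗 : {𝓗 : Finset (Subgroup G) // (∀ H ∈ 𝓗, H ≠ ⊤) ∧ X ⊆ ⋃ H ∈ 𝓗, (H : Set G)},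
    (𝓗.1.card : ℕ∞)

/-- The conjugacy class `x^G`. -/
def conjClass {G : Type u} [Group G] (x : G) : Set G := {y | ∃ g : G, y = g⁻¹ * x * g}

/-- `x` is a `p`-element. -/
def IsPElement {G : Type u} [Group G] (p : ℕ) (x : G) : Prop := ∃ m : ℕ, orderOf x = p ^ m

theorem aux (G : Type u) [Group G] [Finite G] (p : ℕ) (hp : p.Prime) (x : G)
    (hx1 : x ≠ 1) (hx : IsPElement p x) (hgen : Subgroup.closure (conjClass x) = ⊤) :
    ((p + 1 : ℕ) : ℕ∞) ≤ gamma (conjClass x) := by
  refine le_iInf ?_
  rintro ⟨𝓗, hprop, hcov⟩
  show ((p + 1 : ℕ) : ℕ∞) ≤ (𝓗.card : ℕ∞)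
  rw [Nat.cast_le]
  by_contra hlt
  obtain ⟨m, hm⟩ := hx
  refine Pool.Agent.V1174.CovP.main p hp (Nat.card G) G le_rfl x hx1 ⟨m, ?_⟩ ?_ 𝓗 (by omega)
    hprop ?_
  · rw [← hm]; exact pow_orderOf_eq_one x
  · refine eq_top_iff.2 (hgen.ge.trans (Subgroup.closure_mono ?_))
    rintro y ⟨g, rfl⟩
    exact ⟨g⁻¹, Subgroup.mem_top _, by simp⟩
  · intro g
    have := hcov (show g * x * g⁻¹ ∈ conjClass x from ⟨g⁻¹, by simp⟩)
    simpa using this

/-- **Q2 and Q1.** For every nontrivial finite group `G`, every prime `p` and every `p`-element `x`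
with `G = ⟨x^G⟩` one has `γ(x^G) ≥ p + 1`; and for every finite nonabelian simple group `G`, every
prime `p` and every `p`-element `x ≠ 1` of `G` one has `γ(x^G) ≥ p + 1`. -/
theorem result :
    (∀ (G : Type u) [Group G] [Finite G] [Nontrivial G] (p : ℕ) (x : G), p.Prime →
      IsPElement p x → Subgroup.closure (conjClass x) = ⊤ →
        ((p + 1 : ℕ) : ℕ∞) ≤ gamma (conjClass x)) ∧
    (∀ (G : Type u) [Group G] [Finite G] [IsSimpleGroup G] (p : ℕ) (x : G),
      (¬ ∀ a b : G, a * b = b * a) → p.Prime → x ≠ 1 → IsPElement p x →
        ((p + 1 : ℕ) : ℕ∞) ≤ gamma (conjClass x)) := by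
  constructor
  · intro G _ _ _ p x hp hx hgen
    refine aux G p hp x ?_ hx hgen
    rintro rfl
    have h1 : Subgroup.closure (conjClass (1 : G)) ≤ ⊥ := by
      rw [Subgroup.closure_le]
      rintro y ⟨g, rfl⟩
      simp
    rw [hgen, top_le_iff] at h1
    exact absurd h1.symm top_ne_bot
  · intro G _ _ _ p x _ hp hx1 hx
    refine aux G p hp x hx1 hx ?_
    have hn : (Subgroup.closure (conjClass x)).Normal := by
      constructor
      intro n hn g
      have : Subgroup.closure (conjClass x) ≤
          (Subgroup.closure (conjClass x)).comap (MulAut.conj g).toMonoidHom := by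
        rw [Subgroup.closure_le]
        rintro y ⟨h, rfl⟩
        show (MulAut.conj g).toMonoidHom (h⁻¹ * x * h) ∈ Subgroup.closure (conjClass x)
        refine Subgroup.subset_closure ⟨h * g⁻¹, ?_⟩
        simp [MulAut.conj_apply, mul_assoc]
      have h2 := this hn
      simpa [MulAut.conj_apply] using h2
    rcases hn.eq_bot_or_eq_top with h | h
    · exfalso
      apply hx1
      have h1 : x ∈ Subgroup.closure (conjClass x) :=
        Subgroup.subset_closure ⟨1, by simp⟩
      rw [h, Subgroup.mem_bot] at h1
      exact h1
    · exact h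

end Pool.Agent.Results.MP_8885f1_al.CoveringNumber
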